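import Pool.Agent.H95.ESL.Stmts
import Pool.Agent.H95.ESP.PTY

/-! Row NZ of board esl (helper95): for `p` congruent to 1 mod 4 and minus the discriminant form a nonzero
square, the number of affine points of `y^2 = x^3 + a x + b` is not `p`. -/

namespace ESL

theorem nz_thm (hROT : S_ROT) (hFOU : S_FOU) : S_NZ := by
  intro p _ hp hp4 a b δ hδ hdisc haff
  have hD : 4 * a ^ 3 + 27 * b ^ 2 ≠ 0 := by
    intro h0
    rw [h0, neg_zero] at hdisc
    exact hδ (pow_eq_zero_iff (two_ne_zero) |>.mp hdisc.symm)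
  have haff' : Nat.card {v : ZMod p × ZMod p // v.2 ^ 2 = v.1 ^ 3 + a * v.1 + b} = p := haff
  have hpty := ESP.pty_thm p hp a b hD
  rw [haff'] at hpty
  have heven : Even (p + 1) := by
    rw [Nat.even_iff]
    omega
  obtain ⟨x₀, hx₀⟩ := hpty.mp heven
  obtain ⟨e₁, e₂, e₃, h12, h13, h23, hfac⟩ := hROT p hp a b δ x₀ hδ hdisc hx₀
  have hfou := hFOU p hp e₁ e₂ e₃ h12 h13 h23
  have hset : (fun v : ZMod p × ZMod p => v.2 ^ 2 = (v.1 - e₁) * (v.1 - e₂) * (v.1 - e₃))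
      = (fun v : ZMod p × ZMod p => v.2 ^ 2 = v.1 ^ 3 + a * v.1 + b) := by
    funext v
    rw [hfac v.1]
  have hcard : Nat.card {v : ZMod p × ZMod p // v.2 ^ 2 = (v.1 - e₁) * (v.1 - e₂) * (v.1 - e₃)}
      = Nat.card {v : ZMod p × ZMod p // v.2 ^ 2 = v.1 ^ 3 + a * v.1 + b} :=
    congrArg (fun q : ZMod p × ZMod p → Prop => Nat.card {v : ZMod p × ZMod p // q v}) hset
  rw [hcard, haff'] at hfou
  omega

end ESL
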